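import Pool.Agent.FGT.Stmts

/-!
FGT, row DNS: infinite orbits of f.g. subgroups have positive mass.
-/

namespace Pool.Agent.FGT.H16

open Filter Topology Pool.Agent.FGT

universe u

/-- counting -/
theorem count (B : Set ℤ) (p : ℤ) (R : ℕ) (hR : 1 ≤ R)
    (h : ∀ q, p ≤ q → ∃ x ∈ B, q < x ∧ x ≤ q + R) (M : ℕ)
    (hM : 3 * |p| + 3 * R + 1 ≤ M) :
    (2 * M + 1 : ℤ) ≤ 3 * R * (B ∩ Set.Icc (-(M : ℤ)) M).ncard := by
  have hR0 : (0 : ℤ) < R := by exact_mod_cast hR
  have h1 : ∀ k : ℕ, ∃ x ∈ B, p + k * R < x ∧ x ≤ p + (k + 1) * R := by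
    intro k
    have hk : (0 : ℤ) ≤ k * R := by positivity
    obtain ⟨x, hx, h2, h3⟩ := h (p + k * R) (by linarith)
    exact ⟨x, hx, h2, by linarith⟩
  choose x hxB hx1 hx2 using h1
  have hp1 : p ≤ |p| := le_abs_self p
  have hp2 : -|p| ≤ p := neg_abs_le p
  have habs : 0 ≤ |p| := abs_nonneg p
  have hMp : 0 ≤ (M : ℤ) - p := by linarith
  obtain ⟨n, hn⟩ := Int.eq_ofNat_of_zero_le (Int.ediv_nonneg hMp hR0.le)
  have hn1 : (n : ℤ) * R ≤ M - p := by
    have := Int.ediv_mul_le ((M : ℤ) - p) hR0.ne'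
    rwa [hn] at this
  have hn2 : (M : ℤ) - p < (n + 1) * R := by
    have := Int.lt_ediv_add_one_mul_self ((M : ℤ) - p) hR0
    rwa [hn] at this
  have hmono : StrictMono x := by
    refine strictMono_nat_of_lt_succ fun k => ?_
    have h3 := hx2 k
    have h4 := hx1 (k + 1)
    push_cast at h4
    linarith
  have hsub : x '' (Set.Iio n) ⊆ B ∩ Set.Icc (-(M : ℤ)) M := by
    rintro _ ⟨k, hk, rfl⟩
    have hk' : (k : ℤ) + 1 ≤ n := by exact_mod_cast hk
    have h5 : ((k : ℤ) + 1) * R ≤ n * R := mul_le_mul_of_nonneg_right hk' hR0.le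
    have h6 : (0 : ℤ) ≤ k * R := by positivity
    refine ⟨hxB k, ?_, ?_⟩
    · have := hx1 k
      linarith
    · have := hx2 k
      linarith
  have hcard : n ≤ (B ∩ Set.Icc (-(M : ℤ)) M).ncard := by
    calc n = (x '' (Set.Iio n)).ncard := by
          rw [Set.ncard_image_of_injective _ hmono.injective, ← Finset.coe_Iio,
            Set.ncard_coe_finset, Nat.card_Iio]
      _ ≤ _ := Set.ncard_le_ncard hsub ((Set.finite_Icc _ _).subset Set.inter_subset_right)
  have hcard' : (n : ℤ) ≤ (B ∩ Set.Icc (-(M : ℤ)) M).ncard := by exact_mod_cast hcard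
  have h7 : (R : ℤ) * n ≤ R * (B ∩ Set.Icc (-(M : ℤ)) M).ncard :=
    mul_le_mul_of_nonneg_left hcard' hR0.le
  have h8 : (n + 1 : ℤ) * R = R * n + R := by ring
  rw [h8] at hn2
  have h9 : (3 : ℤ) * R * (B ∩ Set.Icc (-(M : ℤ)) M).ncard =
      3 * (R * (B ∩ Set.Icc (-(M : ℤ)) M).ncard) := by ring
  rw [h9]
  linarith

/-- from counting to the mean -/
theorem mass {I : (ℤ → ℝ) → ℝ} (hI : IsMean I) (O : Set ℤ) (R : ℕ) (hR : 1 ≤ R) (N : ℕ)
    (h : ∀ M : ℕ, N ≤ M → (2 * M + 1 : ℤ) ≤ 3 * R * (O ∩ Set.Icc (-(M : ℤ)) M).ncard) :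
    1 / (4 * R : ℝ) ≤ ms I O := by
  have hR0 : (0 : ℝ) < R := by exact_mod_cast hR
  obtain ⟨M, hM, hf⟩ := hI {ind O} (fun f hf => by
    rw [Finset.mem_singleton] at hf
    rw [hf]
    exact Bdd.ind O) (1 / (12 * R : ℝ)) (by positivity) N
  have h1 := hf (ind O) (Finset.mem_singleton_self _)
  rw [av_ind] at h1
  have h2 : ((2 * M + 1 : ℤ) : ℝ) ≤ ((3 * R * (O ∩ Set.Icc (-(M : ℤ)) M).ncard : ℤ) : ℝ) := by
    exact_mod_cast h M hM
  push_cast at h2
  have h3 : 1 / (3 * R : ℝ) ≤ ((O ∩ Set.Icc (-(M : ℤ)) M).ncard : ℝ) / (2 * M + 1) := by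
    rw [div_le_div_iff₀ (by positivity) (by positivity)]
    linarith
  have h4 := (abs_lt.1 h1).2
  have h5 : 1 / (3 * R : ℝ) = 1 / (4 * R : ℝ) + 1 / (12 * R : ℝ) := by
    field_simp
    norm_num
  show 1 / (4 * R : ℝ) ≤ I (ind O)
  linarith

theorem dns : DnsStmt.{u} := by
  intro L _ α hα I hI K hK
  obtain ⟨S, hS⟩ := hK
  choose Rg hRg using hα
  set R : ℕ := 1 + ∑ g ∈ S, (Rg g + Rg g⁻¹) with hRdef
  have hR1 : 1 ≤ R := Nat.le_add_right _ _
  have hle : ∀ g ∈ S, Rg g + Rg g⁻¹ ≤ R := fun g hg =>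
    (Finset.single_le_sum (f := fun g => Rg g + Rg g⁻¹) (fun _ _ => Nat.zero_le _) hg).trans
      (Nat.le_add_left _ _)
  have hS1 : ∀ g ∈ S, ∀ a, |α g a - a| ≤ R := fun g hg a => by
    refine (hRg g a).trans ?_
    exact_mod_cast (Nat.le_add_right _ _).trans (hle g hg)
  have hS2 : ∀ g ∈ S, ∀ a, |α g⁻¹ a - a| ≤ R := fun g hg a => by
    refine (hRg g⁻¹ a).trans ?_
    exact_mod_cast (Nat.le_add_left _ _).trans (hle g hg)
  have inv : ∀ (A : Set ℤ), (∀ g ∈ S, ∀ a ∈ A, α g a ∈ A) → (∀ g ∈ S, ∀ a ∈ A, α g⁻¹ a ∈ A) →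
      ∀ g ∈ K, ∀ a ∈ A, α g a ∈ A := by
    intro A h1 h2 g hg
    have key : (∀ a ∈ A, α g a ∈ A) ∧ (∀ a ∈ A, α g⁻¹ a ∈ A) := by
      rw [← hS] at hg
      induction hg using Subgroup.closure_induction with
      | mem x hx => exact ⟨h1 x hx, h2 x hx⟩
      | one =>
        refine ⟨fun a ha => ?_, fun a ha => ?_⟩
        · rw [map_one]
          exact ha
        · rw [inv_one, map_one]
          exact ha
      | mul x y _ _ hx hy =>
        refine ⟨fun a ha => ?_, fun a ha => ?_⟩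
        · rw [map_mul]
          exact hx.1 _ (hy.1 _ ha)
        · rw [mul_inv_rev, map_mul]
          exact hy.2 _ (hx.2 _ ha)
      | inv x _ hx =>
        refine ⟨hx.2, fun a ha => ?_⟩
        rw [inv_inv]
        exact hx.1 a ha
    exact key.1
  refine ⟨1 / (4 * R : ℝ), by
    have : (0 : ℝ) < R := by exact_mod_cast hR1
    positivity, fun j hj => ?_⟩
  have hjO : j ∈ orb α K j := ⟨1, K.one_mem, by rw [map_one]; rfl⟩
  have hOK : ∀ g ∈ K, ∀ a ∈ orb α K j, α g a ∈ orb α K j := by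
    rintro g hg a ⟨k, hk, rfl⟩
    exact ⟨g * k, K.mul_mem hg hk, by rw [map_mul]; rfl⟩
  have hSK : ∀ g ∈ S, g ∈ K := fun g hg => by
    rw [← hS]
    exact Subgroup.subset_closure hg
  have hinf : (orb α K j).Infinite := hj
  have hunb : ¬ BddAbove (orb α K j) ∨ ¬ BddBelow (orb α K j) := by
    by_contra hcon
    push Not at hcon
    obtain ⟨⟨b, hb⟩, ⟨a, ha⟩⟩ := hcon
    exact hinf ((Set.finite_Icc a b).subset fun x hx => ⟨ha hx, hb hx⟩)
  rcases hunb with hun | hun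
  · have hab : ∀ q, j ≤ q → ∃ x ∈ orb α K j, q < x ∧ x ≤ q + R := by
      intro q hq
      by_contra hno
      push Not at hno
      refine hun ⟨q, ?_⟩
      rintro x ⟨k, hk, rfl⟩
      refine (inv {a | a ∈ orb α K j ∧ a ≤ q} ?_ ?_ k hk j ⟨hjO, hq⟩).2
      · rintro g hg a ⟨ha, haq⟩
        have hmem := hOK g (hSK g hg) a ha
        refine ⟨hmem, ?_⟩
        by_contra hlt
        have h1 := hno _ hmem (not_le.1 hlt)
        have h2 := (abs_le.1 (hS1 g hg a)).2
        linarith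
      · rintro g hg a ⟨ha, haq⟩
        have hmem := hOK g⁻¹ (K.inv_mem (hSK g hg)) a ha
        refine ⟨hmem, ?_⟩
        by_contra hlt
        have h1 := hno _ hmem (not_le.1 hlt)
        have h2 := (abs_le.1 (hS2 g hg a)).2
        linarith
    refine mass hI _ R hR1 (3 * j.natAbs + 3 * R + 1) fun M hM => ?_
    refine count _ j R hR1 hab M ?_
    have : (3 * j.natAbs + 3 * R + 1 : ℤ) ≤ M := by exact_mod_cast hM
    rwa [Int.natCast_natAbs] at this
  · have hab : ∀ q, -j ≤ q → ∃ x ∈ {x : ℤ | -x ∈ orb α K j}, q < x ∧ x ≤ q + R := by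
      intro q hq
      by_contra hno
      push Not at hno
      refine hun ⟨-q, ?_⟩
      rintro x ⟨k, hk, rfl⟩
      refine (inv {a | a ∈ orb α K j ∧ -q ≤ a} ?_ ?_ k hk j ⟨hjO, by linarith⟩).2
      · rintro g hg a ⟨ha, haq⟩
        have hmem := hOK g (hSK g hg) a ha
        refine ⟨hmem, ?_⟩
        by_contra hlt
        have h1 := hno (-(α g a)) (by
          show - -(α g a) ∈ orb α K j
          rw [neg_neg]
          exact hmem) (by
          have := not_le.1 hlt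
          linarith)
        have h2 := (abs_le.1 (hS1 g hg a)).1
        linarith
      · rintro g hg a ⟨ha, haq⟩
        have hmem := hOK g⁻¹ (K.inv_mem (hSK g hg)) a ha
        refine ⟨hmem, ?_⟩
        by_contra hlt
        have h1 := hno (-(α g⁻¹ a)) (by
          show - -(α g⁻¹ a) ∈ orb α K j
          rw [neg_neg]
          exact hmem) (by
          have := not_le.1 hlt
          linarith)
        have h2 := (abs_le.1 (hS2 g hg a)).1
        linarith
    refine mass hI _ R hR1 (3 * j.natAbs + 3 * R + 1) fun M hM => ?_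
    have h3 := count _ (-j) R hR1 hab M (by
      have : (3 * j.natAbs + 3 * R + 1 : ℤ) ≤ M := by exact_mod_cast hM
      rw [abs_neg]
      rwa [Int.natCast_natAbs] at this)
    have h4 : ({x : ℤ | -x ∈ orb α K j} ∩ Set.Icc (-(M : ℤ)) M) =
        (fun x : ℤ => -x) '' (orb α K j ∩ Set.Icc (-(M : ℤ)) M) := by
      ext x
      constructor
      · rintro ⟨hx, hx1, hx2⟩
        exact ⟨-x, ⟨hx, by linarith, by linarith⟩, neg_neg x⟩
      · rintro ⟨y, ⟨hy, hy1, hy2⟩, rfl⟩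
        refine ⟨?_, by linarith, by linarith⟩
        show - -y ∈ orb α K j
        rw [neg_neg]
        exact hy
    rw [h4, Set.ncard_image_of_injective _ neg_injective] at h3
    exact h3

end Pool.Agent.FGT.H16
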